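import Pool.Agent.Helper30_Simp.Defs

/-!
# Squad BEZ (problem MP_b48657_ag): existence of torus zeros of nondegenerate systems (Bernstein)

Leader helper74.  One statement per row, complete proofs in the docstrings.  A system is a finite family `g : ι → MvPolynomial τ k`
(monomial factors do not matter).  RESULT (`BezStmt`): if the exponent sets satisfy the Rado condition and all face systems are
nondegenerate, then no monomial lies in the ideal generated by the `g j`.

PLAN.  Join the system to a binomial system with the zero `(1, ..., 1)` over `k[z]` (`z = 0`: binomials, `z = 1`: the given system).  HEN gives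
a zero over `k[[z]]`, FEX a zero in a finite extension `L` of `k(z)`, PLC a discrete valuation of `L` over `z = 1`; the leading terms give a
zero `η` of a face system over the residue field `κ` (FZR).  By nondegeneracy and HEN again `η` is the leading term of a zero of the given
system over `κ((X))`.
-/

set_option autoImplicit false

namespace Pool.Agent.BEZ

open MvPolynomial Finset Pool.Agent.Helper30_Simp

variable {k ι τ : Type}

/-- weight of an exponent -/
def wt [Fintype τ] (w : τ → ℤ) (e : τ →₀ ℕ) : ℤ := ∑ i, w i * (e i : ℤ)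

/-- the sum of the terms of least weight -/
noncomputable def ini [Field k] [Fintype τ] (w : τ → ℤ) (p : MvPolynomial τ k) :
    MvPolynomial τ k :=
  ∑ e ∈ p.support.filter (fun e => ∀ e' ∈ p.support, wt w e ≤ wt w e'), monomial e (p.coeff e)

/-- Rado condition: there are differences of exponents of the `g j` which are linearly independent -/
def RadC [Field k] [Fintype τ] (g : ι → MvPolynomial τ k) : Prop :=
  ∀ S : Finset ι, S.card ≤ Module.finrank ℚ (Submodule.span ℚ
    {v : τ → ℚ | ∃ j ∈ S, ∃ e ∈ (g j).support, ∃ e' ∈ (g j).support,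
      v = fun i => (e i : ℚ) - (e' i : ℚ)})

/-- nondegenerate: the differentials of every face system are linearly independent at every zero in the torus, over every field
extension -/
def Ndg [Field k] [Fintype ι] [Fintype τ] (g : ι → MvPolynomial τ k) : Prop :=
  ∀ (κ : Type) [Field κ] [Algebra k κ] (w : τ → ℤ) (η : τ → κ) (l : ι → κ), (∀ i, η i ≠ 0) →
    (∀ j, aeval η (ini w (g j)) = 0) →
    (∀ i, ∑ j, l j * aeval η (pderiv i (ini w (g j))) = 0) → ∀ j, l j = 0

/-- **RDO** (medium; no hypotheses).  Rado's theorem: an independent transversal.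
Proof.  Induction on `∑ j, (A j).card`.  For `S : Finset ι` write `A(S) = ⋃_(j ∈ S) A j`, `r(X) = finrank (span X)`.
(1) If all `(A j).card ≤ 1`: `r(A {j}) ≥ 1` shows `A j = {v j}`; `r(range v) ≥ card ι` gives linear independence (`linearIndependent_iff_card_le_finrank_span` or similar).
(2) Otherwise some `A 1` contains `x ≠ y`.  Claim: the condition still holds after removing `x` from `A 1` or after removing `y` from `A 1` (then induction).  If not, there are `S', T'` not containing `1` with
`r(X) ≤ |S'|`, `X = (A 1 - x) ∪ A(S')` and `r(Y) ≤ |T'|`, `Y = (A 1 - y) ∪ A(T')` (sets `S` not containing `1` are not changed by the removal, so the violated set contains `1`).  `X ∪ Y = A 1 ∪ A(S' ∪ T')` and `A(S' ∩ T') ⊆ X ∩ Y`, so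
`|S' ∪ T'| + 1 + |S' ∩ T'| ≤ r(X ∪ Y) + r(X ∩ Y) ≤ r(X) + r(Y) ≤ |S'| + |T'|` (`Submodule.finrank_sup_add_finrank_inf_eq`, `span (X ∩ Y) ≤ span X ⊓ span Y`): a contradiction. -/
def RdoStmt : Prop := ∀ (K V ι : Type) [Field K] [AddCommGroup V] [Module K V]
  [FiniteDimensional K V] [Fintype ι] (A : ι → Finset V),
  (∀ S : Finset ι, S.card ≤ Module.finrank K (Submodule.span K {v : V | ∃ j ∈ S, v ∈ A j})) →
  ∃ v : ι → V, (∀ j, v j ∈ A j) ∧ LinearIndependent K v

/-- **HEN** (medium; no hypotheses).  Hensel's lemma in several variables over `F[[X]]`.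
Proof.  `J j i = constantCoeff (∂_i G_j (η))`; its rows are linearly independent, so there is `R i j ∈ F` with `∑_i J j i * R i j' = δ_(j j')` (the map `F^τ → F^ι` given by `J` is surjective).
Taylor: for an ideal `I`, `δ i ∈ I`: `eval (U + δ) p - eval U p - ∑ i, δ i * eval U (pderiv i p) ∈ I ^ 2` (induction on `p`).
`U_0 = C ∘ η`, `U_(M+1) i = U_M i - ∑ j, C (R i j) * eval U_M (G j)`.  By induction `X ^ (M + 1) ∣ eval U_M (G j)` for all `j` and `constantCoeff (U_M i) = η i`: with `I = (X ^ (M + 1))`, modulo `X ^ (M + 2)`,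
`eval U_(M+1) (G j) = eval U_M (G j) - ∑_i (∑_j' R i j' * eval U_M (G j')) * J j i = 0` because `eval U_M (pderiv i (G j)) = J j i` modulo `X` (its constant coefficient depends only on that of `U_M`).
`X ^ (M + 1) ∣ U_(M+1) i - U_M i`, so `U i = PowerSeries.mk fun n => coeff n (U_n i)` satisfies `X ^ (n + 1) ∣ U i - U_n i`, hence `X ^ (n + 1) ∣ eval U (G j)` for all `n`: it is `0`. -/
def HenStmt : Prop := ∀ (F ι τ : Type) [Field F] [Fintype ι] [Fintype τ]
  (G : ι → MvPolynomial τ (PowerSeries F)) (η : τ → F),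
  (∀ j, PowerSeries.constantCoeff (eval (fun i => PowerSeries.C (η i)) (G j)) = 0) →
  (∀ l : ι → F, (∀ i, ∑ j, l j * PowerSeries.constantCoeff
      (eval (fun i' => PowerSeries.C (η i')) (pderiv i (G j))) = 0) → ∀ j, l j = 0) →
  ∃ U : τ → PowerSeries F, (∀ i, PowerSeries.constantCoeff (U i) = η i) ∧
    ∀ j, eval U (G j) = 0

/-- **FEX** (medium; no hypotheses).  From a zero over `k[[z]]` to a zero in a finite extension of `k(z)`.
Proof.  `K = FractionRing k[X]`, `B = MvPolynomial (Option τ) K / (G j, x_none * ∏ x_i - 1)`.  There is a ring homomorphism `B → LaurentSeries k` (`k[X] → k[[X]] → LaurentSeries k` is injective, so it extends to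
`K` by `IsFractionRing.lift`; `x_i ↦ U i`, `x_none ↦ (∏ U i)⁻¹`, `U i ≠ 0`), so `B` is nontrivial.  Let `L = B / 𝔪`, `𝔪` a maximal ideal (`Ideal.exists_maximal`): a field, of finite type as a `K`-algebra, so
finite over `K` (`finite_of_finite_type_of_isJacobsonRing`).  `T i` = image of `x_i`, a unit. -/
def FexStmt : Prop := ∀ (k ι τ : Type) [Field k] [Fintype ι] [Fintype τ]
  (G : ι → MvPolynomial τ (Polynomial k)) (U : τ → PowerSeries k),
  (∀ i, PowerSeries.constantCoeff (U i) ≠ 0) →
  (∀ j, eval₂ (Polynomial.coeToPowerSeries.ringHom) U (G j) = 0) →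
  ∃ (L : Type) (_ : Field L) (_ : Algebra (FractionRing (Polynomial k)) L)
    (_ : Module.Finite (FractionRing (Polynomial k)) L) (T : τ → L), (∀ i, T i ≠ 0) ∧
    ∀ j, eval₂ ((algebraMap (FractionRing (Polynomial k)) L).comp
      (algebraMap (Polynomial k) (FractionRing (Polynomial k)))) T (G j) = 0

/-- **PLC** (medium-strong; no hypotheses).  A place of `L` over `z = 1`: orders `ord x` and leading coefficients `lc x`.
Proof.  `L` is an algebra over `k[X]` (composition); `C = integralClosure k[X] L` is a Dedekind domain (`integralClosure.isDedekindDomain`, separable because of characteristic `0`) with fraction field `L`, integral over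
`k[X]`, so there is a prime `𝔓` of `C` over the maximal ideal `(X - 1)` (`Ideal.exists_ideal_over_prime_of_isIntegral..`; the map `k[X] → C` is injective), `𝔓 ≠ 0`.  `O = Localization.AtPrime 𝔓` (or the corresponding
subring of `L`) is a discrete valuation ring (`IsLocalization.AtPrime.isDiscreteValuationRing_of_dedekind_domain`) with fraction field `L`.  `κ` = residue field, an algebra over `k` by `k → k[X] → O → κ`.  Choose a uniformizer `π`;
every `x ≠ 0` of `L` is uniquely `x = u π ^ n`, `u` a unit of `O`, `n : ℤ`; `ord x = n`, `lc x = residue u`.  Multiplicativity is clear.  If `p.eval 1 ≠ 0` then `p = p(1) + (X - 1) q` is a unit of `O` with residue `p(1)`.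
Sum rule: divide `∑ x j = 0` by `π ^ m` and reduce modulo `π`: the terms with `ord (x j) > m` vanish. -/
def PlcStmt : Prop := ∀ (k L : Type) [Field k] [CharZero k] [Field L]
  [Algebra (FractionRing (Polynomial k)) L] [Module.Finite (FractionRing (Polynomial k)) L],
  ∃ (κ : Type) (_ : Field κ) (_ : Algebra k κ) (ord : L → ℤ) (lc : L → κ),
    (∀ x, x ≠ 0 → lc x ≠ 0) ∧
    (∀ x y, x ≠ 0 → y ≠ 0 → ord (x * y) = ord x + ord y ∧ lc (x * y) = lc x * lc y) ∧
    (∀ p : Polynomial k, p.eval 1 ≠ 0 →
      algebraMap (FractionRing (Polynomial k)) L (algebraMap _ _ p) ≠ 0 ∧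
      ord (algebraMap (FractionRing (Polynomial k)) L (algebraMap _ _ p)) = 0 ∧
      lc (algebraMap (FractionRing (Polynomial k)) L (algebraMap _ _ p)) =
        algebraMap k κ (p.eval 1)) ∧
    ∀ (J : Type) [Fintype J] (x : J → L) (m : ℤ), (∀ j, x j ≠ 0) → (∀ j, m ≤ ord (x j)) →
      ∑ j, x j = 0 → ∑ j ∈ Finset.univ.filter (fun j => ord (x j) = m), lc (x j) = 0

/-- **FZR** (medium; uses RDO HEN FEX PLC).  A zero of some face system.
Proof.  RDO for `K = ℚ`, `A j` = the finite set of the differences of exponents of `g j`: `e j, e' j ∈ supp (g j)` with independent `e j - e' j` (so `e j ≠ e' j`).  Put, for `a ∈ supp (g j)` with coefficient `c`,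
`p_(j,a) = 1 + z (c - 1)` for `a = e j`, `-1 + z (c + 1)` for `a = e' j`, `z c` otherwise (in `k[z]`); `p_(j,a)(1) = c ≠ 0`.  `G j = ∑_a p_(j,a) x^a`.  At `z = 0`, `x = 1`: `G j = 1 - 1 = 0`, `∂_i G j = e j i - e' j i`, and these vectors are
linearly independent over `k` (characteristic `0`: `LinearIndependent.algebraMap_comp..` of `Mathlib/LinearAlgebra/LinearIndependent/BaseChange.lean`).  HEN for `F = k` (map the coefficients `k[z] → k[[z]]`) gives `U` with constant coefficients `1`;
FEX gives `L`, `T`; PLC gives `κ`, `ord`, `lc`.  `w i = ord (T i)`, `η i = lc (T i)`.  For `a ∈ supp (g j)`: `ord (p_(j,a) T^a) = wt w a`, `lc (p_(j,a) T^a) = c η^a`.  The sum rule for `m` = least weight of the exponents of `g j` (they are not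
empty) gives `aeval η (ini w (g j)) = 0`. -/
def FzrStmt : Prop := ∀ (k ι τ : Type) [Field k] [CharZero k] [Fintype ι] [Fintype τ]
  (g : ι → MvPolynomial τ k), RadC g →
  ∃ (κ : Type) (_ : Field κ) (_ : Algebra k κ) (w : τ → ℤ) (η : τ → κ), (∀ i, η i ≠ 0) ∧
    ∀ j, aeval η (ini w (g j)) = 0

/-- **BEZ** (medium; uses HEN FZR).  No monomial lies in the ideal generated by the `g j`.
Proof.  FZR gives `κ`, `w`, `η`.  `RadC` for `S = {j}` shows that `g j ≠ 0`; `m j` = least weight on `supp (g j)`.  `G j = ∑_(a ∈ supp (g j)) (c_a X ^ (wt w a - m j)) x^a` over `κ[[X]]` (`toNat`).  `constantCoeff (G j (η)) = aeval η (ini w (g j)) = 0` and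
`constantCoeff (∂_i G j (η)) = aeval η (pderiv i (ini w (g j)))`; `Ndg` is the second hypothesis of HEN.  So `U` with constant coefficients `η i ≠ 0` and `G j (U) = 0`.  In `LaurentSeries κ` put `T i = X ^ (w i) * U i`
(`HahnSeries.single (w i) 1`), which is not `0`: `aeval T (g j) = ∑ c_a X ^ (wt w a) U^a = X ^ (m j) * G j (U) = 0`.  Evaluate the relation at `T`: `(∏ T i) ^ N = 0`, a contradiction. -/
def BezStmt : Prop := ∀ (k ι τ : Type) [Field k] [CharZero k] [Fintype ι] [Fintype τ]
  (g : ι → MvPolynomial τ k), RadC g → Ndg g →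
  ∀ (N : ℕ) (h : ι → MvPolynomial τ k), (∏ i, X i) ^ N ≠ ∑ j, g j * h j

/-- the exponent `a` outside `P` -/
noncomputable def offP {σ : Type} [DecidableEq σ] (P : Finset σ) (a : σ →₀ ℕ) : σ →₀ ℕ :=
  a.filter fun i => i ∉ P

/-- **BZI** (medium; uses BEZ).  The form in which the theorem is used: `M` is the set of the exponents of the flat compact face, `c` its coefficients, `K ⊆ P`; all exponents `a ∈ M` with `a j ≠ 0`, `j ∈ K`, are equal to `1_j` on `P`; no
subset `K'` of `K` is weak stable.
Proof.  `ι = {j // j ∈ K}`, `τ = {i // i ∉ P}`, `g j = ∑_(a ∈ M, a j ≠ 0) c a x^(a outside P)` (as a polynomial in the variables `τ`): the map `a ↦ a outside P` is injective on `{a ∈ M, a j ≠ 0}`, so `supp (g j)` is its image.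
`RadC`: for `K' ⊆ K` choose `b_j ∈ M`, `b_j j ≠ 0` (exists: `2 ≤ rank` for `K' = {j}`); `span {a ∈ M : a j ≠ 0, j ∈ K'}` is contained in the sum of `span {b_j : j ∈ K'}` (dimension `≤ |K'|`) and of the span of the differences `a - b_j`, which vanish on `P`, so
its rank is `≤ |K'| + dim (differences)`, and the dimension of the differences is the same after restriction to the coordinates outside `P`.
`Ndg`: let `κ, w, η, l` be given, `l ≠ 0`, `K' = {j : l j ≠ 0}`.  Put `m j` = least value of `wt w` on `supp (g j)`, and `u : σ → ℤ`, `u i = w i` outside `P`, `u j = - m j - C` for `j ∈ K'`, `u i = 0` for `i ∈ P - K'`, `C` so large that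
`u . a > - C` for all `a ∈ M` with `a j = 0` for all `j ∈ K'`.  Then `u . a = wt w a - m j - C ≥ - C` for `a j ≠ 0`, `j ∈ K'`, with equality exactly for the exponents of `ini w (g j)`, so the face of `u` is the set of these exponents (`K'` is not empty),
and its polynomial is `F = ∑_(j ∈ K') x_j ini w (g j)`.  At the point `y`, `y j = l j` (`j ∈ K'`), `y i = 1` (`i ∈ P - K'`), `y i = η i` outside `P`: `F = 0`, `∂_j F = ini w (g j) (η) = 0`, `∂_i F = ∑ l j ∂_i ini w (g j) (η) = 0`, `∂_i F = 0` for `i ∈ P - K'`.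
By `TorusSmooth` (evaluate the membership in the radical at `y`) `∏ y i = 0`: a contradiction.
The relation: apply `X i ↦ 1` for `i ∈ P` to get a relation in the variables outside `P`. -/
def BziStmt : Prop := ∀ (k σ : Type) [Field k] [CharZero k] [Fintype σ] [DecidableEq σ]
  (M : Finset (σ →₀ ℕ)) (c : (σ →₀ ℕ) → k) (P K : Finset σ), K ⊆ P → (∀ a ∈ M, c a ≠ 0) →
  (∀ a ∈ M, ∀ j ∈ K, a j ≠ 0 → a j = 1 ∧ ∀ i ∈ P, i ≠ j → a i = 0) →
  (∀ u : σ → ℤ, TorusSmooth (∑ a ∈ M.filter (fun a => ∀ b ∈ M, wt u a ≤ wt u b),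
    monomial a (c a))) →
  (∀ K' ⊆ K, 2 * K'.card ≤ Module.finrank ℚ (Submodule.span ℚ
    {v : σ → ℚ | ∃ a ∈ M, (∃ j ∈ K', a j ≠ 0) ∧ v = fun i => (a i : ℚ)})) →
  ∀ (N : ℕ) (h : σ → MvPolynomial σ k), (∏ i ∈ Finset.univ \ P, X i) ^ N ≠
    ∑ j ∈ K, (∑ a ∈ M.filter (fun a => a j ≠ 0), monomial (offP P a) (c a)) * h j

end Pool.Agent.BEZ
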